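import Mathlib
import Pool.Agent.MP_1dbd31_co.h27.All

namespace Pool.Agent.Results.MP_1dbd31_co.NearLinearError

open Pool.Agent.MP_1dbd31_co

theorem result : ∀ n k : ℕ, k + 1 ≤ n → (n : ℝ) ≤ (3 + √5) / 2 * k →
    |(ghat n k : ℝ) - n * √(k * n) / 2| ≤
      4 * n * Real.exp (104 * √(Real.log n * Real.log (Real.log n))) := by
  intro n k hk h
  have a := h27.upper hk h
  have b := h27.lower hk h
  have c := mul_le_mul_of_nonneg_left (Real.one_le_exp
    (show 0 ≤ 104 * √(Real.log n * Real.log (Real.log n)) by positivity)) (Nat.cast_nonneg n)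
  have n0 : (0 : ℝ) ≤ n := Nat.cast_nonneg n
  rw [abs_le]
  constructor <;> linarith

end Pool.Agent.Results.MP_1dbd31_co.NearLinearError
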