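import Mathlib
import Pool.Agent.MP_1dbd31_co.win.Asym

namespace Pool.Agent.Results.MP_1dbd31_co.SqrtAsymp

open Pool.Agent.MP_1dbd31_co

theorem result (C : ℕ) (ε : ℝ) (hε : 0 < ε) : ∃ r₀ : ℕ, ∀ n k r f : ℕ, r₀ ≤ r → n = k + r →
    r ^ 2 ≤ C * n →
    f = (Finset.range r).sup (fun D => min (n * D) (D ^ 2 + n * (r - 1 - D))) →
    |(n : ℝ) * (n - 1) - f - 2 * ghat n k| ≤ ε * (r : ℝ) ^ 2 := by
  obtain ⟨r₀, h⟩ := sq.regime C (half_pos hε)
  obtain ⟨K, hK⟩ := sq.exists_K (half_pos hε)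
  refine ⟨r₀ + K + C + 1, fun n k r f h0 h1 h2 hf => ?_⟩
  obtain ⟨⟨D, d1, d2⟩, p2, -⟩ := h n k r (by omega) h1 h2
  obtain ⟨E, e1, e2⟩ := Finset.exists_mem_eq_sup (Finset.range r) ⟨0, by simp; omega⟩
    (fun D => min (n * D) (D ^ 2 + n * (r - 1 - D)))
  rw [Finset.mem_range] at e1
  have k1 : (K : ℝ) + 1 ≤ r := by exact_mod_cast (show K + 1 ≤ r by omega)
  have k0 : (0 : ℝ) ≤ K := Nat.cast_nonneg K
  have k2 : 1 ≤ (r : ℝ) * (ε / 2) := hK.trans (by gcongr)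
  have k3 : (r : ℝ) ≤ ε / 2 * r ^ 2 := by nlinarith
  have n1 : ((n - 1 : ℕ) : ℝ) = n - 1 := by rw [Nat.cast_sub (by omega), Nat.cast_one]
  rw [abs_le]
  constructor
  · have p := p2 E e1
    obtain ⟨e, rfl⟩ := Nat.exists_eq_add_of_lt e1
    rw [← hf, show E + e + 1 - 1 - E = e by omega] at e2
    have a1 : (f : ℝ) ≤ n * E := by exact_mod_cast e2.le.trans (min_le_left _ _)
    have a2 : (f : ℝ) ≤ E ^ 2 + n * e := by exact_mod_cast e2.le.trans (min_le_right _ _)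
    have a3 : (E : ℝ) ^ 2 ≤ ((E + e + 1 : ℕ) : ℝ) ^ 2 := by
      exact_mod_cast Nat.pow_le_pow_left (by omega) 2
    have a4 := mul_le_mul_of_nonneg_left a3 (half_pos hε).le
    have a5 := mul_nonneg (half_pos hε).le (sq_nonneg (E : ℝ))
    have a6 : ((E + e + 1 : ℕ) : ℝ) - 1 - E = e := by push_cast; ring
    rw [a6] at p
    have a7 : (f : ℝ) - ε / 2 * E ^ 2 ≤ min (n * E : ℝ) ((1 - ε / 2) * E ^ 2 + n * e) :=
      le_min (by linarith) (by linarith)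
    linarith
  · have b1 : min (n * D) (D ^ 2 + n * (r - 1 - D)) ≤ f := hf ▸ Finset.le_sup
      (f := fun D => min (n * D) (D ^ 2 + n * (r - 1 - D))) (Finset.mem_range.2 d1)
    have b2 := Nat.mul_le_mul_right (r - 1 - D) (Nat.sub_le n 1)
    have b3 : D * (D + 1) = D ^ 2 + D := by ring
    have b4 : n * (n - 1) ≤ 2 * ghat n k + f + r := by omega
    have b5 : (n : ℝ) * (n - 1 : ℕ) ≤ 2 * ghat n k + f + r := by exact_mod_cast b4
    rw [n1] at b5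
    nlinarith [mul_nonneg hε.le (sq_nonneg (r : ℝ))]

end Pool.Agent.Results.MP_1dbd31_co.SqrtAsymp
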