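import Mathlib
import Pool.Agent.MP_1dbd31_co.win.Asym

namespace Pool.Agent.Results.MP_1dbd31_co.SqrtWindows

open Pool.Agent.MP_1dbd31_co

theorem result (μ : ℕ) (ε : ℝ) (hε : 0 < ε) : ∃ d₀ : ℕ, ∀ n k d : ℕ, d₀ ≤ d →
    n + μ = k + 2 * d + 1 → d ^ 2 + 2 * d + 3 + μ ≤ (μ + 1) * n →
    (μ : ℝ) * n ≤ (1 - ε) * (d : ℝ) ^ 2 → ghat n k = n.choose 2 - n * d / 2 := by
  obtain ⟨r₀, h⟩ := sq.regime (4 * (μ + 1)) hε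
  refine ⟨r₀ + μ, fun n k d h0 h1 h2 h3 => ?_⟩
  obtain ⟨r, hr⟩ : ∃ r, r + μ = 2 * d + 1 := ⟨2 * d + 1 - μ, by omega⟩
  refine (h n k r (by omega) (by omega) ?_).2.2 d μ hr h2 h3
  have h4 : r ≤ 2 * d + 1 := by omega
  nlinarith [Nat.mul_le_mul h4 h4]

end Pool.Agent.Results.MP_1dbd31_co.SqrtWindows
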