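import Mathlib
import Pool.Agent.MP_1dbd31_co.Main

namespace Pool.Agent.Results.MP_1dbd31_co.SrgBound

open Pool.Agent.MP_1dbd31_co

theorem result (n k D u f : ℕ) (hu : 1 ≤ u) (huD : u ≤ D) (hn : n + u = k + 2 * D + 1)
    (h1 : (u - 1) * (n - 1) ≤ D ^ 2) (h2 : 3 * D + 3 ≤ n + u)
    (hf : f = D * (D + 1) + (n - 1) * (D - u)) :
    n.choose 2 ≤ ghat n k + f / 2 ∧
    (∀ m, SrgExists (m + 1) D (u - 1) u → (n = m + 1 ∨ m + 1 + D < n + u) →
      ghat n k + f / 2 = n.choose 2) ∧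
    (Even f → ghat n k + f / 2 = n.choose 2 → ∃ m, u * m = D ^ 2 ∧
      SrgExists (m + 1) D (u - 1) u ∧ (n = m + 1 ∨ m + 1 + D < n + u)) := by
  subst hf
  have a := main_lower hu huD hn h1 h2
  have c := two_choose n
  refine ⟨a, fun m hM hm => le_antisymm (main_exact hu huD hn hM hm) a, fun he hg => ?_⟩
  rw [Nat.even_iff] at he
  exact main_converse hu huD hn h1 h2 (by omega)

end Pool.Agent.Results.MP_1dbd31_co.SrgBound
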